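import Pool.Agent.W_868bb7_t7n.FinH
import Pool.Agent.W_868bb7_t7n.StatM

set_option autoImplicit false

/-!
# MP_868bb7_ag: relations between matchings and Kimura finite-dimensionality of self-dual objects

`C` is any `K`-linear (`K` a field of characteristic zero) pseudo-abelian rigid symmetric tensor
category with `End(1) = K`, for example the category of Chow motives over the complex numbers with
rational coefficients.  `M` is an object with a symmetric perfect pairing `M ⊗ M ⟶ T`, where `T` is
invertible with trivial symmetry (`Pairing`); for example `M = h(X)`, `T = L^d` for every smooth projective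
variety `X` of dimension `d`, or `M = h^3(X)` for a threefold.

`M` is of type `(p | q)` (`KimuraType`) if `M ≅ P ⊞ Q` with `Λ^(p+1) P = 0`, `Sym^(q+1) Q = 0`,
`dim P = p`, `dim Q = -q`.

`Signed K M p q`: some endomorphism `π` of `M` (not assumed to be idempotent) has `tr (π^k) = p` for all
`k ≥ 1`, and `dim M = p - q`.

`MDep K P g`: the `(2 g - 1)!!` perfect matchings of `2 g` points, as morphisms `M^{⊗ 2 g} ⟶ T^{⊗ g}`, are
linearly dependent.  `Dep K M n`: the `n!` permutations of `M^{⊗ n}` are linearly dependent.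

1. If `M` is of type `(p | q)` then `q` is even; `M` is Kimura finite-dimensional if and only if it is of
   some type `(p | 2 r)`.
2. Criterion: `M` is of type `(p | 2 r)` if and only if `Signed K M p (2 * r)` and the matchings are
   dependent for some `g < (p + 3) (r + 2)`; equivalently for `g = (p + 1) (r + 1)`.  It is also equivalent
   that `Signed K M p (2 * r)` and the permutations are dependent for some `n < (p + 2) (2 r + 2)`;
   equivalently for `n = (p + 1) (2 r + 1)`.
3. Quantisation: if the matchings are dependent for some `g`, then there are `a, b ≥ 1` with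
   `dim M = a + 1 - 2 b` such that they are dependent exactly for the `g ≥ a b`; and
   `(a, b) = (p + 1 + 2 k, r + 1 + k)` for some `k ≥ 0` if `Signed K M p (2 * r)`.
4. Rigidity: all relations between the matchings, in all degrees, are determined by `dim M` and the first
   degree of dependence.
-/

namespace Pool.Agent.Results.MP_868bb7_ag.MatchingCriterion

open CategoryTheory MonoidalCategory Limits Pool.Agent.W_MP_868bb7_ag Pool.Agent.W_868bb7_h94
  T7 T7n

universe v u w

section Aux

variable (K : Type w) [Field K] {C : Type u} [Category.{v} C] [MonoidalCategory C]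
  [Preadditive C] [Linear K C] [SymmetricCategory C]

theorem dep_iff (M : C) (n : ℕ) : Pool.Agent.W_868bb7_h94.Dep K M n ↔ Jm K M n ≠ ⊥ := by
  unfold Pool.Agent.W_868bb7_h94.Dep
  rw [Fintype.not_linearIndependent_iff, Submodule.ne_bot_iff]
  constructor
  · rintro ⟨g, h, i, hi⟩
    refine ⟨g, h, fun h0 => hi ?_⟩
    rw [h0]
    rfl
  · rintro ⟨g, h, h0⟩
    refine ⟨g, h, ?_⟩
    by_contra hc
    push Not at hc
    exact h0 (funext hc)

end Aux

theorem result (K : Type w) [Field K] [CharZero K] {C : Type u} [Category.{v} C]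
    [MonoidalCategory C] [Preadditive C] [Linear K C] [MonoidalPreadditive C] [MonoidalLinear K C]
    [SymmetricCategory C] [RightRigidCategory C] [HasBinaryBiproducts C] [IsIdempotentComplete C]
    (hunit : Function.Bijective (fun a : K => a • 𝟙 (𝟙_ C))) {M T : C} (P : Pairing M T) :
    (∀ p q : ℕ, KimuraType K M p q → Even q) ∧
    (KimuraFD K M ↔ ∃ p r : ℕ, KimuraType K M p (2 * r)) ∧
    (∀ p r : ℕ, Criteria K P p r) ∧ Quantised K P ∧
    ∀ {M' T' : C} (P' : Pairing M' T'), Rigid K P P' := by
  haveI : UnitK K C := ⟨hunit⟩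
  have hun := hunit_of K (C := C)
  have hδ : P.c ≫ P.q = (tr K (𝟙 M)) • 𝟙 T := pairing_dim P _ (tr_spec K _)
  refine ⟨even_odd_part K P, ⟨fun h => ?_, fun ⟨p, r, h⟩ => kimura_of_type K p (2 * r) h⟩,
    ?_, ?_, ?_⟩
  · obtain ⟨p, q, h⟩ := type_of_kimura K h
    obtain ⟨r, hr⟩ := even_odd_part K P p q h
    refine ⟨p, r, ?_⟩
    rw [two_mul, ← hr]
    exact h
  · intro p r
    unfold Criteria
    tfae_have 1 → 2 := MDep_of_type K P p r
    tfae_have 2 → 3 := by
      rintro ⟨h1, h3⟩
      exact ⟨h1, _, by nlinarith, h3⟩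
    tfae_have 3 → 1 := by
      rintro ⟨h1, g, hg, hd⟩
      exact type_of_MDep K P p r h1 g hg hd
    tfae_have 1 → 4 := by
      intro h
      refine ⟨(MDep_of_type K P p r h).1, (dep_iff K M _).2 ?_⟩
      obtain ⟨e, he, h1, h2, t1, t2⟩ := idem_of_type K p (2 * r) h
      obtain ⟨x, hx, hx0⟩ := converse K p (2 * r) e (𝟙 M - e) (by abel) h1 h2
      intro hb
      have h3 : x ∈ Jm K M ((p + 1) * (2 * r + 1)) := hx0
      rw [hb, Submodule.mem_bot] at h3
      exact hx h3
    tfae_have 4 → 5 := by
      rintro ⟨h1, h3⟩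
      exact ⟨h1, _, by nlinarith, h3⟩
    tfae_have 5 → 1 := by
      rintro ⟨⟨⟨π, hπ⟩, hdim⟩, n, hn, hd⟩
      rw [dep_iff] at hd
      obtain ⟨x, hx, hx0⟩ := Submodule.exists_mem_ne_zero_of_ne_bot hd
      obtain ⟨e, he, t1, t2, h1, h2⟩ := forward K M π p (2 * r)
        (fun k hk => tr_unique K _ _ (hπ k hk)) (tr_unique K _ _ hdim) n hn x hx0 hx
      exact type_of_idem K e he p (2 * r) h1 h2 t1 t2
    tfae_finish
  · rintro ⟨g₀, h₀⟩
    obtain ⟨a, b, ha, hb, hab, h⟩ := degrees K P hδ hun h₀
    refine ⟨a, b, ha, hb, ?_, h, fun p r hS => ?_⟩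
    · rw [tr_spec K, hab]
    · exact quant K P p r hS a b ha hb hab ((h _).2 le_rfl)
  · intro M' T' P' hdim h g f hf
    have hδ' : P'.c ≫ P'.q = (tr K (𝟙 M)) • 𝟙 T' := by
      apply pairing_dim
      rw [hdim]
      exact tr_spec K _
    exact rigid K P P' hδ hδ' hun h g f hf

end Pool.Agent.Results.MP_868bb7_ag.MatchingCriterion
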