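import Pool.Agent.W_868bb7_h60.TaM

set_option autoImplicit false

/-!
# MP_868bb7_ag: smash-nilpotent tautological cycles vanish

`C` is any `K`-linear (`K` a field of characteristic zero) rigid symmetric tensor category with
`End(1) = K`, for example the category of Chow motives over the complex numbers with rational
coefficients.  `M` is an object with a symmetric perfect pairing `q : M ⊗ M ⟶ T`, `T` invertible (for
example `M = h(X)`, `T` the Lefschetz motive to the power `dim X`, `q` the class of the diagonal), `G` is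
a finite group acting on `M` with `q (g x, y) = q (x, g* y)`, and `l k : M ⟶ L k`, `w k : L k ⟶ M` are
finitely many linear forms and classes (for example the powers of the hyperplane class), dual to each
other, such that the projector `∑ l k ≫ w k` is self-adjoint for `q` and commutes with `G`.

`Taut n Y F`: the form `F : M^{⊗ n} ⟶ Y` is a linear combination of products of pairings `q (g x_i, x_j)`
over disjoint pairs of factors and of linear forms `l k (g x_i)` in the other factors.

Theorem: a tautological form `F` is zero as soon as some tensor power `F^{⊗ N}` is zero.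
-/

namespace Pool.Agent.Results.MP_868bb7_ag.SmashTaut

open CategoryTheory MonoidalCategory
open Pool.Agent.W_MP_868bb7_ag Pool.Agent.W_868bb7_h64 Pool.Agent.W868h60

universe v u w

theorem result (K : Type w) [Field K] [CharZero K] {C : Type u} [Category.{v} C]
    [MonoidalCategory C] [Preadditive C] [Linear K C] [MonoidalPreadditive C] [MonoidalLinear K C]
    [SymmetricCategory C] [RightRigidCategory C]
    (hunit : Function.Bijective (fun a : K => a • 𝟙 (𝟙_ C)))
    {M T T' : C} (eT : T ⊗ T' ≅ 𝟙_ C) (hT : (β_ T T).hom = 𝟙 (T ⊗ T))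
    (q : M ⊗ M ⟶ T) (c : T ⟶ M ⊗ M) (hq : (β_ M M).hom ≫ q = q)
    (hc : c ▷ M ≫ (α_ M M M).hom ≫ M ◁ q = (β_ T M).hom)
    {G : Type} [Group G] [Finite G] [StarMul G] (ρ : G →* End M)
    (hρ : ∀ g : G, (ρ g).asHom ▷ M ≫ q = M ◁ (ρ (star g)).asHom ≫ q)
    {ι : Type} [Fintype ι] (L L' : ι → C) (eL : ∀ k, L k ⊗ L' k ≅ 𝟙_ C)
    (l : ∀ k, M ⟶ L k) (w : ∀ k, L k ⟶ M)
    (hlw : ∀ k, w k ≫ l k = 𝟙 (L k)) (hlw' : ∀ j k, j ≠ k → w j ≫ l k = 0)
    (hself : (∑ k, l k ≫ w k) ▷ M ≫ q = M ◁ (∑ k, l k ≫ w k) ≫ q)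
    (hcomm : ∀ g, (ρ g).asHom ≫ (∑ k, l k ≫ w k) = (∑ k, l k ≫ w k) ≫ (ρ g).asHom)
    (hL : ∀ j k (f : L j ⟶ L k), f = 0 ∨ IsIso f)
    (hLT : ∀ j k (f : L j ⊗ L k ⟶ T), f = 0 ∨ IsIso f)
    (n : ℕ) (Y : C) (F : pow M n ⟶ Y) (hF : Taut K q ρ l n Y F)
    (N : ℕ) (hN : powMap F N = 0) : F = 0 := by
  have : UnitK K C := ⟨hunit⟩
  have hFT : Faith T := faith_of_inv ((β_ T' T) ≪≫ eT)
  let d : SD M T :=
    { q := q
      c := c
      qs := hq
      cs := cs_of_zig hFT hT q c hq hc
      zig := hc }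
  have hD : TD d.q ρ l w :=
    { h1 := hlw
      h2 := hlw'
      hself := hself
      hcomm := hcomm
      hL := hL
      hLT := hLT }
  exact taut_zero K eT hT d ρ hρ l w eL hD n Y F hF ⟨N, hN⟩

end Pool.Agent.Results.MP_868bb7_ag.SmashTaut
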