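import Pool.Agent.W_868bb7_h64.LawT64

set_option autoImplicit false

/-!
# MP_868bb7_ag: factors of a non-zero Kimura finite-dimensional tensor product

`C` is any `K`-linear (`K` a field of characteristic zero) pseudo-abelian rigid symmetric tensor
category with `End(1) = K`, for example the category of Chow motives over the complex numbers with
rational coefficients.  Let `M ⊗ N` be non-zero.  Then `M ⊗ N` is Kimura finite-dimensional if and
only if `M` and `N` are; `M ⊗ N` is evenly finite-dimensional if and only if `M` and `N` are both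
evenly or both oddly finite-dimensional; `M ⊗ N` is oddly finite-dimensional if and only if one of
`M`, `N` is evenly and the other oddly finite-dimensional.
-/

namespace Pool.Agent.Results.MP_868bb7_ag.TensorFactor

open CategoryTheory MonoidalCategory Limits Pool.Agent.W_MP_868bb7_ag

universe v u w

theorem result (K : Type w) [Field K] [CharZero K] {C : Type u} [Category.{v} C]
    [MonoidalCategory C] [Preadditive C] [Linear K C] [MonoidalPreadditive C] [MonoidalLinear K C]
    [SymmetricCategory C] [RightRigidCategory C] [HasBinaryBiproducts C] [IsIdempotentComplete C]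
    (hunit : Function.Bijective (fun a : K => a • 𝟙 (𝟙_ C)))
    (M N : C) (hne : ¬ IsZero (M ⊗ N)) :
    (KimuraFD K (M ⊗ N) ↔ KimuraFD K M ∧ KimuraFD K N) ∧
      (EvenFD K (M ⊗ N) ↔ (EvenFD K M ∧ EvenFD K N) ∨ (OddFD K M ∧ OddFD K N)) ∧
      (OddFD K (M ⊗ N) ↔ (EvenFD K M ∧ OddFD K N) ∨ (OddFD K M ∧ EvenFD K N)) := by
  haveI : UnitK K C := ⟨hunit⟩
  exact ⟨Pool.Agent.W_868bb7_h64.t_kim K M N hne, Pool.Agent.W_868bb7_h64.t_even K M N hne,
    Pool.Agent.W_868bb7_h64.t_odd K M N hne⟩

end Pool.Agent.Results.MP_868bb7_ag.TensorFactor
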